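import Pool.Agent.TH996.Rec.All

set_option autoImplicit false

/-!
In the parking process on a transitive, unimodular, infinitely accessible triple the expected
number of visits to a vertex is finite at every density below one half, and it is at most
`4 g / (1 - 2 p)` if the kernel is transient with Green function `g` at the vertex.
-/

namespace Pool.Agent.Results.MP_971c94_pr.GreenBound

open Pool.Agent.TH996.Parking Pool.Agent.TH996 Pool.Agent.TH996.Park
open MeasureTheory Measure Finset

open Classical in
/-- the transition probability from `x` to `y` in `j` steps of the random walk with kernel `K` -/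
noncomputable def kpow {V : Type*} (G : SimpleGraph V) [G.LocallyFinite] (K : V → V → ℝ) :
    ℕ → V → V → ℝ
  | 0, x, y => if x = y then 1 else 0
  | j + 1, x, y => ∑ z ∈ G.neighborFinset x, K x z * kpow G K j z y

/-- `g` bounds the Green function at `x`: the expected number of visits to `x` (time `0` included)
of one random walk with kernel `K` started at `x` is at most `g` -/
def GreenLE {V : Type*} (G : SimpleGraph V) [G.LocallyFinite] (K : V → V → ℝ) (x : V) (g : ℝ) :
    Prop :=
  ∀ J : ℕ, ∑ j ∈ range J, kpow G K j x x ≤ g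

section

variable {V : Type*}

lemma U_eq (G : SimpleGraph V) [G.LocallyFinite] (K : V → V → ℝ)
    (Γ : Subgroup (Equiv.Perm V)) (hK : IsKernel G K) (hA : IsAut G K Γ)
    (hT : IsTransitive Γ) (hU : IsUnimodular Γ) (o : V) [DecidableEq V] :
    ∀ (J : ℕ) (x : V), (mkTri G K Γ hK hA hT hU).U 1 o J x =
      ∑ j ∈ range J, kpow G K j x o := by
  intro J
  induction J with
  | zero => intro x; simp [Tri.U]
  | succ J ih =>
    intro x
    rw [Tri.U_succ, sum_range_succ']
    have h1 : (mkTri G K Γ hK hA hT hU).Q ((mkTri G K Γ hK hA hT hU).U 1 o J) x =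
        ∑ j ∈ range J, kpow G K (j + 1) x o := by
      have h2 : (mkTri G K Γ hK hA hT hU).Q ((mkTri G K Γ hK hA hT hU).U 1 o J) x =
          ∑ z ∈ G.neighborFinset x, K x z * (mkTri G K Γ hK hA hT hU).U 1 o J z := rfl
      rw [h2]
      have h3 : ∀ j, kpow G K (j + 1) x o = ∑ z ∈ G.neighborFinset x, K x z * kpow G K j z o :=
        fun j => rfl
      rw [sum_congr rfl fun j _ => h3 j, sum_comm' (t' := G.neighborFinset x)
        (s' := fun _ => range J) (by intro a b; tauto)]
      refine sum_congr rfl fun z _ => ?_
      rw [ih z, mul_sum]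
    rw [h1, one_mul, add_comm]
    congr 1
    have h4 : kpow G K 0 x o = if x = o then (1:ℝ) else 0 := by
      unfold kpow
      congr
    rw [h4]

end

/-- **Theorem.** For every transitive, unimodular, infinitely accessible triple `(G, K, Γ)` and
every `p < 1 / 2` the expected number of visits to a vertex in the parking process at density `p`
is finite (full positive answer to Q1); if the kernel is transient, with Green function at most `g`
on the diagonal, it is at most `4 g / (1 - 2 p)`. -/
theorem result {V : Type*} [MeasurableSpace V] [DiscreteMeasurableSpace V]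
    (G : SimpleGraph V) [G.LocallyFinite] (hG : G.Connected) (K : V → V → ℝ)
    (Γ : Subgroup (Equiv.Perm V)) (hK : IsKernel G K) (hA : IsAut G K Γ)
    (hT : IsTransitive Γ) (hU : IsUnimodular Γ) (hI : IsInfinitelyAccessible G K Γ)
    (p : ℝ) (hp0 : 0 ≤ p) (hp1 : p < 1 / 2) (x : V) :
    expectedVisits G K p x < ⊤ ∧
    ∀ g : ℝ, GreenLE G K x g →
      expectedVisits G K p x ≤ ENNReal.ofReal (4 * g / (1 - 2 * p)) := by
  classical
  refine ⟨Park.visits_finite G hG K Γ hK hA hT hU hI p hp0 hp1 x, fun g hg => ?_⟩
  have : Countable V := countable_of_connected G hG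
  have hp : 0 ≤ p ∧ p ≤ 1 := ⟨hp0, by linarith⟩
  set S := mkTri G K Γ hK hA hT hU with hS
  have hpos : 0 < 1 - 2 * p := by linarith
  have hB : ∀ J, S.U 1 x J x ≤ g := by
    intro J
    rw [hS, U_eq]
    exact hg J
  -- a bound for the process without killing gives the claim
  have hred : ∀ C : ℝ, (∀ T, ∫ ω, Dn S T x (emb ω) ∂(S.law0 p) ≤ C) →
      ∀ T, ∑ t ∈ range T, aT S p 0 x t ≤ C := by
    intro C hC T
    have := law_prob S hp (κ := 0) ⟨le_rfl, zero_le_one⟩
    have hD : BM (Dn S T x) := BM.sum _ fun t _ => bm_C S.nb t x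
    refine le_trans (le_of_eq ?_) (hC T)
    rw [← law_emb S hp hD]
    unfold Dn
    rw [integral_finsetSum _ fun t _ => (bm_C S.nb t x).integrable _]
    rfl
  refine expectedVisits_le G K Γ hK hA hT hU hp x _ (hred _ fun T => ?_)
  have h1 := sum_cars_le S hp hp1 g x (fun κ k0 k1 J =>
    (U_le_one S (by linarith) (by linarith) x J x).trans (hB J)) T
  rw [le_div_iff₀ hpos]
  linarith

end Pool.Agent.Results.MP_971c94_pr.GreenBound
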